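import Pool.Agent.KS6_36.MST.Sums

/-!
The gain in the mean order.
-/

open Finset

namespace Pool.Agent.KS6_36.MST

variable {m l p r : ℕ}

theorem sum_rest (f : ℕ → ℕ → ℚ) (M : ℚ) (hM : 0 ≤ M)
    (h : ∀ i j, i < 2 * m → 2 * m < j → j ≤ 2 * m + l → 0 ≤ f i j ∧ f i j ≤ M) :
    0 ≤ ∑ i ∈ Ico 0 (2 * m), ∑ j ∈ Ioc (2 * m) (2 * m + l), f i j ∧
    ∑ i ∈ Ico 0 (2 * m), ∑ j ∈ Ioc (2 * m) (2 * m + l), f i j ≤ 2 * m * l * M := by
  constructor
  · refine sum_nonneg (fun i hi => sum_nonneg (fun j hj => ?_))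
    rw [mem_Ico] at hi; rw [mem_Ioc] at hj
    exact (h i j hi.2 hj.1 hj.2).1
  · have h1 : ∀ i ∈ Ico 0 (2 * m), ∑ j ∈ Ioc (2 * m) (2 * m + l), f i j ≤ l * M := by
      intro i hi
      rw [mem_Ico] at hi
      calc ∑ j ∈ Ioc (2 * m) (2 * m + l), f i j ≤ ∑ _j ∈ Ioc (2 * m) (2 * m + l), M :=
            sum_le_sum (fun j hj => by rw [mem_Ioc] at hj; exact (h i j hi.2 hj.1 hj.2).2)
        _ = l * M := by rw [sum_const, Nat.card_Ioc, nsmul_eq_mul]; congr 2; omega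
    calc _ ≤ ∑ _i ∈ Ico 0 (2 * m), (l * M : ℚ) := sum_le_sum h1
      _ = 2 * m * l * M := by
        rw [sum_const, Nat.card_Ico, nsmul_eq_mul, Nat.sub_zero]; push_cast; ring

theorem sum_arcs (f : ℕ → ℕ → ℚ) (M : ℚ) (hM : 0 ≤ M)
    (h : ∀ a i, 1 ≤ a → a ≤ i → i < 2 * m + l → 0 ≤ f a i ∧ f a i ≤ M) :
    0 ≤ ∑ a ∈ Ico 1 (2 * m + l), ∑ i ∈ Ico a (2 * m + l), f a i ∧
    ∑ a ∈ Ico 1 (2 * m + l), ∑ i ∈ Ico a (2 * m + l), f a i ≤ (2 * m + l) ^ 2 * M := by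
  constructor
  · refine sum_nonneg (fun i hi => sum_nonneg (fun j hj => ?_))
    rw [mem_Ico] at hi hj
    exact (h i j hi.1 hj.1 hj.2).1
  · have h1 : ∀ a ∈ Ico 1 (2 * m + l), ∑ i ∈ Ico a (2 * m + l), f a i ≤ (2 * m + l) * M := by
      intro a ha
      rw [mem_Ico] at ha
      calc ∑ i ∈ Ico a (2 * m + l), f a i ≤ ∑ _i ∈ Ico a (2 * m + l), M :=
            sum_le_sum (fun j hj => by rw [mem_Ico] at hj; exact (h a j ha.1 hj.1 hj.2).2)
        _ = ((2 * m + l - a : ℕ) : ℚ) * M := by rw [sum_const, Nat.card_Ico, nsmul_eq_mul]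
        _ ≤ (2 * m + l) * M := by
          refine mul_le_mul_of_nonneg_right ?_ hM
          have : 2 * m + l - a ≤ 2 * m + l := by omega
          exact_mod_cast this
    calc _ ≤ ∑ _a ∈ Ico 1 (2 * m + l), ((2 * m + l) * M : ℚ) := sum_le_sum h1
      _ = ((2 * m + l - 1 : ℕ) : ℚ) * ((2 * m + l) * M) := by
        rw [sum_const, Nat.card_Ico, nsmul_eq_mul]
      _ ≤ (2 * m + l) * ((2 * m + l) * M) := by
        refine mul_le_mul_of_nonneg_right ?_ (by positivity)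
        have : 2 * m + l - 1 ≤ 2 * m + l := by omega
        exact_mod_cast this
      _ = _ := by ring

theorem pow_rest (hr : r ≤ 1) {q : ℕ} (h : q ≤ p + r) :
    (0 : ℚ) ≤ 2 ^ q ∧ (2 : ℚ) ^ q ≤ 2 ^ (p + 1) :=
  ⟨by positivity, pow_le_pow_right₀ (by norm_num) (by omega)⟩

theorem NN_bounds (hl : 1 ≤ l) (hm : 1 ≤ m) (hr : r ≤ 1) :
    2 ^ (2 * p) * (2 ^ r * T0 m l + m ^ 2) ≤ NN m l p r ∧
    NN m l p r ≤ 2 ^ (2 * p) * (2 ^ r * T0 m l + m ^ 2) +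
      2 ^ (p + 1) * (2 * m * l + (2 * m + l) ^ 2) + (2 * p + r) := by
  have h1 := main_split (p := p) (r := r) hl hm (fun i j => (2 : ℚ) ^ QQ m l p r i j) 0
    (2 ^ (2 * p + r)) 0 (fun i j _ _ h => by rw [h]; ring)
    (fun i j _ _ h _ _ _ => by rw [h]; ring)
  have h2 := sum_rest (m := m) (l := l) (fun i j => (2 : ℚ) ^ QQ m l p r i j) (2 ^ (p + 1))
    (by positivity) (fun i j hi hj _ => pow_rest hr (QQ_rest hl hm hi hj))
  have h3 := sum_arcs (m := m) (l := l) (fun a i => (2 : ℚ) ^ qs m p r (Icc a i)) (2 ^ (p + 1))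
    (by positivity) (fun a i ha _ _ => pow_rest hr (qs_arc ha))
  unfold NN
  rw [h1]
  have h4 : (2 : ℚ) ^ (2 * p + r) = 2 ^ (2 * p) * 2 ^ r := pow_add _ _ _
  have h5 : (0 : ℚ) ≤ 2 * p + r := by positivity
  beta_reduce at h2 h3
  constructor
  · rw [h4]; linarith [h2.1, h3.1]
  · rw [h4]; linarith [h2.2, h3.2]

theorem SS_bounds (hl : 1 ≤ l) (hm : 1 ≤ m) (hr : r ≤ 1) :
    2 ^ (2 * p) * (2 ^ r * (T1 m l - r / 2 * T0 m l) + m ^ 2 * (m + 1)) ≤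
      KK m l p * NN m l p r - SS m l p r ∧
    KK m l p * NN m l p r - SS m l p r ≤
      2 ^ (2 * p) * (2 ^ r * (T1 m l - r / 2 * T0 m l) + m ^ 2 * (m + 1)) +
      KK m l p * (2 ^ (p + 1) * (2 * m * l + (2 * m + l) ^ 2) + (2 * p + r)) := by
  have hK : 1 ≤ KK m l p := by
    unfold KK
    have : (0 : ℚ) ≤ 2 * m + l + p := by positivity
    linarith
  rw [KN_sub]
  have h1 := main_split (p := p) (r := r) hl hm (fun i j => B m l p r i j) (2 ^ (2 * p + r))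
    (2 ^ (2 * p + r) * (-(r / 2))) 1 (fun i j _ hj h => by rw [B_main hj h]; ring)
    (fun i j _ hj h _ _ _ => by
      rw [B_main (s := 0) hj h]; push_cast; ring)
  have h2 := sum_rest (m := m) (l := l) (fun i j => B m l p r i j) (2 ^ (p + 1) * KK m l p)
    (by positivity) (fun i j hi hj hj2 => B_rest hr (by omega) hj2 (QQ_rest hl hm hi hj))
  have h3 := sum_arcs (m := m) (l := l) (fun a i => B' m l p r a i) (2 ^ (p + 1) * KK m l p)
    (by positivity) (fun a i ha hi hi2 => B'_rest hr ha hi hi2)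
  rw [h1]
  have h4 : (2 : ℚ) ^ (2 * p + r) = 2 ^ (2 * p) * 2 ^ r := pow_add _ _ _
  have h5 : (0 : ℚ) ≤ 2 * p + r := by positivity
  have h6 : 0 ≤ (KK m l p - 1) * (2 * p + r) := mul_nonneg (by linarith) h5
  have h7 : (KK m l p - 1) * (2 * p + r) ≤ KK m l p * (2 * p + r) :=
    mul_le_mul_of_nonneg_right (by linarith) h5
  beta_reduce at h2 h3
  constructor
  · rw [h4]; linarith [h2.1, h3.1]
  · rw [h4]; linarith [h2.2, h3.2]

end Pool.Agent.KS6_36.MST
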