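import Pool.Graph.R_pool_sql_team_22a80281.Lib.helper33_.SubGraph

/-!
The subtree polynomial of a cycle with pendant vertices.
-/

open Finset

namespace Pool.Agent.KS6_36.MST

open Pool.Agent.Lib.helper33.SubSem

section gen

variable {A : Type*} [CommSemiring A] (x : A)

theorem Z_leaf {R : Finset ℕ} {E : Finset (Sym2 ℕ)} {h w : ℕ} (hh : h ∈ R) (hw : w ∉ R)
    (hE : ∀ e ∈ E, w ∉ e) : Z x R (insert s(h, w) E) = (1 + x) * Z x R E := by
  have hne : s(h, w) ∉ E := fun hc => hE _ hc (Sym2.mem_mk_right _ _)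
  rw [Z_branch x (mem_insert_self _ _) hh hw, erase_insert hne, Z_irrel1 x w R E hE]
  ring

theorem Z_strip {R : Finset ℕ} {E : Finset (Sym2 ℕ)} {h : ℕ} (hh : h ∈ R) (S : Finset ℕ)
    (hS : ∀ w ∈ S, w ∉ R ∧ ∀ e ∈ E, w ∉ e) :
    Z x R (E ∪ S.image (fun w => s(h, w))) = (1 + x) ^ S.card * Z x R E := by
  classical
  induction S using Finset.induction_on with
  | empty => simp
  | insert w S hw ih =>
    have h1 : E ∪ (insert w S).image (fun w => s(h, w)) =
        insert s(h, w) (E ∪ S.image (fun w => s(h, w))) := by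
      rw [image_insert, union_insert]
    have h2 := hS w (mem_insert_self _ _)
    have hwh : w ≠ h := fun hc => h2.1 (hc ▸ hh)
    rw [h1, Z_leaf x hh h2.1, ih (fun w' hw' => hS w' (mem_insert_of_mem hw')),
      card_insert_of_notMem hw]
    · ring
    · intro e he
      rcases mem_union.mp he with he | he
      · exact h2.2 e he
      · obtain ⟨w', hw', rfl⟩ := mem_image.mp he
        intro hc
        rcases Sym2.mem_iff.mp hc with hc | hc
        · exact hwh hc
        · exact hw (hc ▸ hw')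

end gen

/-- path edges -/
def P (a b : ℕ) : Finset (Sym2 ℕ) := (Ico a b).image (fun t => s(t, t + 1))

theorem mem_P_lt {a b : ℕ} {e : Sym2 ℕ} (he : e ∈ P a b) {v : ℕ} (hv : v ∈ e) :
    a ≤ v ∧ v ≤ b := by
  obtain ⟨t, ht, rfl⟩ := mem_image.mp he
  rw [mem_Ico] at ht
  rcases Sym2.mem_iff.mp hv with rfl | rfl <;> omega

section fam

variable (c n : ℕ) (own : ℕ → ℕ)

/-- the pendant edges at the vertices of `S` -/
def Lf (S : Finset ℕ) : Finset (Sym2 ℕ) :=
  ((Ico c n).filter (fun w => own w ∈ S)).image (fun w => s(own w, w))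

/-- the number of pendant vertices at `t` -/
def pc (t : ℕ) : ℕ := ((Ico c n).filter (fun w => own w = t)).card

/-- the path from `a` to `b` with all pendant edges -/
def D (a b : ℕ) : Finset (Sym2 ℕ) := P a b ∪ Lf c n own (Icc a b)

variable {c n own}

theorem mem_Lf {S : Finset ℕ} {e : Sym2 ℕ} : e ∈ Lf c n own S ↔
    ∃ w, (c ≤ w ∧ w < n) ∧ own w ∈ S ∧ s(own w, w) = e := by
  simp only [Lf, mem_image, mem_filter, mem_Ico, and_assoc]

theorem Z_stripL {A : Type*} [CommSemiring A] (x : A) {R S : Finset ℕ} {E : Finset (Sym2 ℕ)}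
    {h : ℕ} (hh : h ∈ R) (hS : h ∉ S)
    (hR : ∀ v ∈ R, v < c) (hE : ∀ e ∈ E, ∀ v ∈ e, v < c) (hown : ∀ w, c ≤ w → w < n → own w < c) :
    Z x R (E ∪ Lf c n own (insert h S)) = (1 + x) ^ pc c n own h * Z x R (E ∪ Lf c n own S) := by
  classical
  have h1 : E ∪ Lf c n own (insert h S) = (E ∪ Lf c n own S) ∪
      ((Ico c n).filter (fun w => own w = h)).image (fun w => s(h, w)) := by
    ext e
    simp only [mem_union, mem_Lf, mem_image, mem_filter, mem_Ico, mem_insert]
    constructor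
    · rintro (h1 | ⟨w, h1, h2 | h2, h3⟩)
      · exact Or.inl (Or.inl h1)
      · exact Or.inr ⟨w, ⟨h1, h2⟩, h2 ▸ h3⟩
      · exact Or.inl (Or.inr ⟨w, h1, h2, h3⟩)
    · rintro ((h1 | ⟨w, h1, h2, h3⟩) | ⟨w, ⟨h1, h2⟩, h3⟩)
      · exact Or.inl h1
      · exact Or.inr ⟨w, h1, Or.inr h2, h3⟩
      · exact Or.inr ⟨w, h1, Or.inl h2, h2.symm ▸ h3⟩
  rw [h1, Z_strip x hh]
  · rfl
  · intro w hw
    simp only [mem_filter, mem_Ico] at hw
    refine ⟨fun hc => ?_, fun e he hc => ?_⟩
    · have := hR w hc; omega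
    · rcases mem_union.mp he with he | he
      · have := hE e he w hc; omega
      · obtain ⟨w', h2, h3, rfl⟩ := mem_Lf.mp he
        rcases Sym2.mem_iff.mp hc with hc | hc
        · have := hown w' h2.1 h2.2; omega
        · subst hc; exact hS (hw.2 ▸ h3)

theorem mem_D_vert {a b : ℕ} {e : Sym2 ℕ} (he : e ∈ D c n own a b) {v : ℕ}
    (hv : v ∈ e) : (a ≤ v ∧ v ≤ b) ∨ c ≤ v := by
  rcases mem_union.mp he with he | he
  · exact Or.inl (mem_P_lt he hv)
  · obtain ⟨w, h2, h3, rfl⟩ := mem_Lf.mp he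
    rcases Sym2.mem_iff.mp hv with rfl | rfl
    · exact Or.inl (mem_Icc.mp h3)
    · exact Or.inr h2.1

variable {A : Type*} [CommSemiring A] (x : A)

theorem Icc_left {a b : ℕ} (h : a ≤ b) : Icc a b = insert a (Icc (a + 1) b) := by
  ext t; simp only [mem_insert, mem_Icc]; omega

theorem Icc_right {a b : ℕ} (h : a ≤ b + 1) : Icc a (b + 1) = insert (b + 1) (Icc a b) := by
  ext t; simp only [mem_insert, mem_Icc]; omega

theorem P_left {a b : ℕ} (h : a < b) : P a b = insert s(a, a + 1) (P (a + 1) b) := by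
  rw [P, P, ← image_insert (fun t => s(t, t + 1))]
  congr 1
  ext t; simp only [mem_insert, mem_Ico]; omega

theorem P_right {a b : ℕ} (h : a ≤ b) : P a (b + 1) = insert s(b, b + 1) (P a b) := by
  rw [P, P, ← image_insert (fun t => s(t, t + 1))]
  congr 1
  ext t; simp only [mem_insert, mem_Ico]; omega

/-- Stripping the pendant vertices at the left end. -/
theorem D_stripl {R : Finset ℕ} {a b : ℕ} (hab : a < b) (hb : b < c) (ha : a ∈ R)
    (hR : ∀ v ∈ R, v < c) (hown : ∀ w, c ≤ w → w < n → own w < c) :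
    Z x R (D c n own a b) =
      (1 + x) ^ pc c n own a * Z x R (insert s(a, a + 1) (D c n own (a + 1) b)) := by
  rw [D, Icc_left hab.le, Z_stripL x ha (by simp) hR _ hown, D, ← insert_union, ← P_left hab]
  intro e he v hv
  have := mem_P_lt he hv
  omega

theorem D_stripr {R : Finset ℕ} {a b : ℕ} (hab : a ≤ b) (_hb : b + 1 < c) (ha : b + 1 ∈ R)
    (hR : ∀ v ∈ R, v < c) (hown : ∀ w, c ≤ w → w < n → own w < c) :
    Z x R (D c n own a (b + 1)) =
      (1 + x) ^ pc c n own (b + 1) * Z x R (insert s(b, b + 1) (D c n own a b)) := by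
  rw [D, Icc_right (by omega), Z_stripL x ha (by simp) hR _ hown, D, ← insert_union,
    ← P_right hab]
  intro e he v hv
  have := mem_P_lt he hv
  omega

theorem D_self {R : Finset ℕ} {b : ℕ} (_hb : b < c) (ha : b ∈ R)
    (hR : ∀ v ∈ R, v < c) (hown : ∀ w, c ≤ w → w < n → own w < c) :
    Z x R (D c n own b b) = (1 + x) ^ pc c n own b := by
  have h1 : Icc b b = insert b ∅ := by simp
  have h2 : P b b = ∅ := by simp [P]
  rw [D, h1, h2, Z_stripL x ha (by simp) hR (by simp) hown]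
  have h3 : (∅ ∪ Lf c n own ∅ : Finset (Sym2 ℕ)) = ∅ := by simp [Lf]
  rw [h3, Z_base x R ∅ (by simp), mul_one]

theorem notMem_D {a b v : ℕ} (_hb : b < c) (hv : v < c) (h : v < a ∨ b < v) :
    ∀ e ∈ D c n own a b, v ∉ e := by
  intro e he hc
  have := mem_D_vert he hc
  omega

theorem U_rec {a b : ℕ} (hab : a < b) (hb : b < c) (hown : ∀ w, c ≤ w → w < n → own w < c) :
    Z x {a} (D c n own a b) =
      (1 + x) ^ pc c n own a * (1 + x * Z x {a + 1} (D c n own (a + 1) b)) := by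
  have h0 : s(a, a + 1) ∉ D c n own (a + 1) b := fun hc =>
    notMem_D (v := a) hb (by omega) (by omega) _ hc (Sym2.mem_mk_left _ _)
  rw [D_stripl x hab hb (mem_singleton_self _) (by simp; omega) hown,
    Z_branch x (mem_insert_self _ _) (mem_singleton_self _) (by simp), erase_insert h0,
    Z_base x {a}, pair_comm, Z_irrel1 x a {a + 1} _ (notMem_D hb (by omega) (by omega))]
  intro p w hpw hp
  rw [mem_singleton] at hp
  subst hp
  exact absurd (Sym2.mem_mk_left _ _) (notMem_D hb (by omega) (by omega) _ hpw)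

theorem L_rec {a b : ℕ} (hab : a ≤ b) (hb : b + 1 < c) (hown : ∀ w, c ≤ w → w < n → own w < c) :
    Z x {b + 1} (D c n own a (b + 1)) =
      (1 + x) ^ pc c n own (b + 1) * (1 + x * Z x {b} (D c n own a b)) := by
  have h0 : s(b + 1, b) ∉ D c n own a b := fun hc =>
    notMem_D (v := b + 1) (by omega) (by omega) (by omega) _ hc (Sym2.mem_mk_left _ _)
  rw [D_stripr x hab hb (mem_singleton_self _) (by simp; omega) hown,
    show s(b, b + 1) = s(b + 1, b) from Sym2.eq_swap,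
    Z_branch x (mem_insert_self _ _) (mem_singleton_self _) (by simp), erase_insert h0,
    Z_base x {b + 1}, pair_comm,
    Z_irrel1 x (b + 1) {b} _ (notMem_D (by omega) (by omega) (by omega))]
  intro p w hpw hp
  rw [mem_singleton] at hp
  subst hp
  exact absurd (Sym2.mem_mk_left _ _) (notMem_D (by omega) (by omega) (by omega) _ hpw)

theorem T_rec {a b : ℕ} (hab : a + 1 < b) (hb : b < c)
    (hown : ∀ w, c ≤ w → w < n → own w < c) :
    Z x {a, b} (D c n own a b) =
      (1 + x) ^ pc c n own a * (Z x {b} (D c n own (a + 1) b) +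
        x * Z x {a + 1, b} (D c n own (a + 1) b)) := by
  have h0 : s(a, a + 1) ∉ D c n own (a + 1) b := fun hc =>
    notMem_D (v := a) hb (by omega) (by omega) _ hc (Sym2.mem_mk_left _ _)
  rw [D_stripl x (by omega) hb (by simp) (by simp; omega) hown,
    Z_branch x (mem_insert_self _ _) (by simp) (by simp; omega), erase_insert h0,
    Z_irrel1 x a {b} _ (notMem_D hb (by omega) (by omega)), Finset.insert_comm,
    Z_irrel1 x a {a + 1, b} _ (notMem_D hb (by omega) (by omega))]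

theorem T_last {a : ℕ} (hb : a + 1 < c) (hown : ∀ w, c ≤ w → w < n → own w < c) :
    Z x {a, a + 1} (D c n own a (a + 1)) =
      (1 + x) ^ pc c n own a * Z x {a + 1} (D c n own (a + 1) (a + 1)) := by
  have h0 : s(a, a + 1) ∉ D c n own (a + 1) (a + 1) := fun hc =>
    notMem_D (v := a) hb (by omega) (by omega) _ hc (Sym2.mem_mk_left _ _)
  rw [D_stripl x (by omega) hb (by simp) (by simp; omega) hown,
    Z_dead x (mem_insert_self _ _) (by simp) (by simp), erase_insert h0,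
    Z_irrel1 x a {a + 1} _ (notMem_D hb (by omega) (by omega))]

/-- the weight of a vertex of the cycle -/
def W (c n : ℕ) (own : ℕ → ℕ) (t : ℕ) : A := x * (1 + x) ^ pc c n own t

theorem U_eq (hown : ∀ w, c ≤ w → w < n → own w < c) {b : ℕ} (hb : b < c) :
    ∀ k a : ℕ, a + k = b → x * Z x {a} (D c n own a b) =
      ∑ i ∈ Icc a b, ∏ t ∈ Icc a i, W x c n own t := by
  intro k
  induction k with
  | zero =>
    intro a ha
    obtain rfl : a = b := by omega
    rw [D_self x hb (mem_singleton_self _) (by simp; omega) hown]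
    simp [W]
  | succ k ih =>
    intro a ha
    rw [U_rec x (by omega) hb hown, Icc_left (show a ≤ b by omega),
      sum_insert (by simp), Icc_self, prod_singleton]
    have h1 : ∀ i ∈ Icc (a + 1) b, ∏ t ∈ Icc a i, W x c n own t =
        W x c n own a * ∏ t ∈ Icc (a + 1) i, W x c n own t := by
      intro i hi
      rw [mem_Icc] at hi
      rw [Icc_left (show a ≤ i by omega), prod_insert (by simp)]
    rw [sum_congr rfl h1, ← mul_sum, ← ih (a + 1) (by omega), W]
    ring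

theorem L_eq (hown : ∀ w, c ≤ w → w < n → own w < c) {a : ℕ} :
    ∀ b : ℕ, a ≤ b → b < c → x * Z x {b} (D c n own a b) =
      ∑ i ∈ Icc a b, ∏ t ∈ Icc i b, W x c n own t := by
  intro b
  induction b with
  | zero =>
    intro h1 h2
    obtain rfl : a = 0 := by omega
    rw [D_self x h2 (mem_singleton_self _) (by simp; omega) hown]
    simp [W]
  | succ b ih =>
    intro h1 h2
    rcases Nat.lt_or_ge b a with h3 | h3
    · obtain rfl : a = b + 1 := by omega
      rw [D_self x h2 (mem_singleton_self _) (by simp; omega) hown]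
      simp [W]
    · rw [L_rec x h3 h2 hown, Icc_right (show a ≤ b + 1 by omega),
        sum_insert (by simp), Icc_self, prod_singleton]
      have h1 : ∀ i ∈ Icc a b, ∏ t ∈ Icc i (b + 1), W x c n own t =
          W x c n own (b + 1) * ∏ t ∈ Icc i b, W x c n own t := by
        intro i hi
        rw [mem_Icc] at hi
        rw [Icc_right (show i ≤ b + 1 by omega), prod_insert (by simp)]
      rw [sum_congr rfl h1, ← mul_sum, ← ih h3 (by omega), W]
      ring

theorem T_eq (hown : ∀ w, c ≤ w → w < n → own w < c) {b : ℕ} (hb : b < c) :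
    ∀ k a : ℕ, a + (k + 1) = b → x * (x * Z x {a, b} (D c n own a b)) =
      ∑ i ∈ Ico a b, ∑ j ∈ Ioc i b, (∏ t ∈ Icc a i, W x c n own t) *
        ∏ t ∈ Icc j b, W x c n own t := by
  intro k
  induction k with
  | zero =>
    intro a ha
    obtain rfl : b = a + 1 := by omega
    rw [T_last x hb hown, D_self x hb (mem_singleton_self _) (by simp; omega) hown]
    simp only [Nat.Ico_succ_singleton, sum_singleton, Nat.Ioc_succ_singleton, Icc_self,
      prod_singleton, W]
    ring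
  | succ k ih =>
    intro a ha
    rw [T_rec x (by omega) hb hown]
    have e1 : Ico a b = insert a (Ico (a + 1) b) := by
      ext t; simp only [mem_insert, mem_Ico]; omega
    have e2 : Ioc a b = Icc (a + 1) b := by
      ext t; simp only [mem_Ioc, mem_Icc]; omega
    rw [e1, sum_insert (by simp), Icc_self, prod_singleton, ← mul_sum, e2,
      ← L_eq x hown b (by omega) hb]
    have h1 : ∀ i ∈ Ico (a + 1) b, ∑ j ∈ Ioc i b, (∏ t ∈ Icc a i, W x c n own t) *
        ∏ t ∈ Icc j b, W x c n own t = W x c n own a * ∑ j ∈ Ioc i b,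
          (∏ t ∈ Icc (a + 1) i, W x c n own t) * ∏ t ∈ Icc j b, W x c n own t := by
      intro i hi
      rw [mem_Ico] at hi
      rw [mul_sum]
      refine sum_congr rfl (fun j _ => ?_)
      rw [Icc_left (show a ≤ i by omega), prod_insert (by simp), mul_assoc]
    rw [sum_congr rfl h1, ← mul_sum, ← ih (a + 1) (by omega), W]
    ring

/-- adjacency, smaller label first -/
def adjL (c : ℕ) (own : ℕ → ℕ) (a b : ℕ) : Prop :=
  a < b ∧ ((b < c ∧ (b = a + 1 ∨ (a = 0 ∧ b + 1 = c))) ∨ (c ≤ b ∧ own b = a))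

instance (c : ℕ) (own : ℕ → ℕ) (a b : ℕ) : Decidable (adjL c own a b) := by
  unfold adjL; infer_instance

/-- neighbour lists -/
def nb (c n : ℕ) (own : ℕ → ℕ) (v : ℕ) : List ℕ :=
  (List.range n).filter (fun w => decide (adjL c own v w ∨ adjL c own w v))

/-- neighbour lists in the form needed by the library -/
def nbf (c n : ℕ) (own : ℕ → ℕ) (v _p : ℕ) : List (ℕ × ℕ) :=
  (nb c n own v).map (fun w => (w, v))

theorem mem_nb {v w : ℕ} : w ∈ nb c n own v ↔ w < n ∧ (adjL c own v w ∨ adjL c own w v) := by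
  simp [nb]

open Pool.Agent.Lib.helper33.SubAlg Pool.Agent.Lib.helper33.SubGraph

theorem spec : Spec n (n + 1) (nb c n own) (nbf c n own) := by
  have h1 : ∀ u, (nb c n own u).Nodup := fun u => List.nodup_range.filter _
  have h2 : ∀ u, (nb c n own u).length < n + 1 := fun u =>
    Nat.lt_succ_of_le ((List.length_filter_le _ _).trans (by simp))
  refine ⟨?_, ?_, ?_⟩
  · intro u hu w hw
    rw [mem_nb] at hw
    refine ⟨hw.1, mem_nb.mpr ⟨hu, hw.2.symm⟩, ?_⟩
    rintro rfl
    rcases hw.2 with h | h <;> exact absurd h.1 (lt_irrefl _)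
  · exact fun u _ => ⟨h1 u, h2 u⟩
  · intro u hu p hp
    refine ⟨(h1 u).map (fun a b h => (Prod.mk.inj h).1), by simp [nbf]; exact Nat.lt_succ_iff.mp (h2 u), ?_, ?_⟩
    · intro q hq
      obtain ⟨w, hw, rfl⟩ := List.mem_map.mp hq
      exact ⟨rfl, hw⟩
    · intro w hw
      exact Or.inr (List.mem_map.mpr ⟨w, hw, rfl⟩)

theorem mem_D {a b p w : ℕ} : s(p, w) ∈ D c n own a b ↔
    (∃ t, (a ≤ t ∧ t < b) ∧ ((p = t ∧ w = t + 1) ∨ (p = t + 1 ∧ w = t))) ∨
    (∃ t, (c ≤ t ∧ t < n) ∧ (a ≤ own t ∧ own t ≤ b) ∧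
      ((p = own t ∧ w = t) ∨ (p = t ∧ w = own t))) := by
  rw [D, mem_union, mem_Lf]
  simp only [P, mem_image, mem_Ico, mem_Icc, Sym2.eq_iff]
  constructor
  · rintro (⟨t, h1, h2⟩ | ⟨t, h1, h2, h3⟩)
    · exact Or.inl ⟨t, h1, by omega⟩
    · exact Or.inr ⟨t, h1, h2, by omega⟩
  · rintro (⟨t, h1, h2⟩ | ⟨t, h1, h2, h3⟩)
    · exact Or.inl ⟨t, h1, by omega⟩
    · exact Or.inr ⟨t, h1, h2, by omega⟩

theorem Ev_mid (hcn : c ≤ n) (hown : ∀ w, c ≤ w → w < n → own w < c) {v : ℕ} (hv : 1 ≤ v)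
    (hvc : v < c) : Ev n (nb c n own) v = D c n own v (c - 1) := by
  ext e
  induction e using Sym2.ind with
  | h p w =>
    rw [mem_Ev spec, mem_D, mem_nb]
    constructor
    · rintro ⟨hp, ⟨hw, h1 | h1⟩, h2, h3⟩
      · obtain ⟨h4, ⟨h5, h6⟩ | ⟨h5, h6⟩⟩ := h1
        · exact Or.inl ⟨p, by omega, by omega⟩
        · exact Or.inr ⟨w, ⟨h5, hw⟩, by have := hown w h5 hw; omega, by omega⟩
      · obtain ⟨h4, ⟨h5, h6⟩ | ⟨h5, h6⟩⟩ := h1
        · exact Or.inl ⟨w, by omega, by omega⟩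
        · exact Or.inr ⟨p, ⟨h5, hp⟩, by have := hown p h5 hp; omega, by omega⟩
    · rintro (⟨t, h1, ⟨rfl, rfl⟩ | ⟨rfl, rfl⟩⟩ | ⟨t, h1, h2, ⟨rfl, rfl⟩ | ⟨rfl, rfl⟩⟩)
      · exact ⟨by omega, ⟨by omega, Or.inl ⟨by omega, Or.inl ⟨by omega, Or.inl rfl⟩⟩⟩, by omega,
          by omega⟩
      · exact ⟨by omega, ⟨by omega, Or.inr ⟨by omega, Or.inl ⟨by omega, Or.inl rfl⟩⟩⟩, by omega,
          by omega⟩
      · exact ⟨by omega, ⟨by omega, Or.inl ⟨by omega, Or.inr ⟨by omega, rfl⟩⟩⟩, by omega,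
          by omega⟩
      · exact ⟨by omega, ⟨by omega, Or.inr ⟨by omega, Or.inr ⟨by omega, rfl⟩⟩⟩, by omega,
          by omega⟩

theorem Ev_zero (hc : 3 ≤ c) (hcn : c ≤ n) (hown : ∀ w, c ≤ w → w < n → own w < c) :
    Ev n (nb c n own) 0 = insert s(0, c - 1) (D c n own 0 (c - 1)) := by
  ext e
  induction e using Sym2.ind with
  | h p w =>
    rw [mem_Ev spec, mem_insert, mem_D, mem_nb, Sym2.eq_iff]
    constructor
    · rintro ⟨hp, ⟨hw, h1 | h1⟩, h2, h3⟩
      · obtain ⟨h4, ⟨h5, h6 | h6⟩ | ⟨h5, h6⟩⟩ := h1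
        · exact Or.inr (Or.inl ⟨p, by omega, by omega⟩)
        · exact Or.inl (by omega)
        · exact Or.inr (Or.inr ⟨w, ⟨h5, hw⟩, by have := hown w h5 hw; omega, by omega⟩)
      · obtain ⟨h4, ⟨h5, h6 | h6⟩ | ⟨h5, h6⟩⟩ := h1
        · exact Or.inr (Or.inl ⟨w, by omega, by omega⟩)
        · exact Or.inl (by omega)
        · exact Or.inr (Or.inr ⟨p, ⟨h5, hp⟩, by have := hown p h5 hp; omega, by omega⟩)
    · rintro ((⟨rfl, rfl⟩ | ⟨rfl, rfl⟩) |
        ⟨t, h1, ⟨rfl, rfl⟩ | ⟨rfl, rfl⟩⟩ | ⟨t, h1, h2, ⟨rfl, rfl⟩ | ⟨rfl, rfl⟩⟩)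
      · exact ⟨by omega, ⟨by omega, Or.inl ⟨by omega, Or.inl ⟨by omega, Or.inr (by omega)⟩⟩⟩,
          by omega, by omega⟩
      · exact ⟨by omega, ⟨by omega, Or.inr ⟨by omega, Or.inl ⟨by omega, Or.inr (by omega)⟩⟩⟩,
          by omega, by omega⟩
      · exact ⟨by omega, ⟨by omega, Or.inl ⟨by omega, Or.inl ⟨by omega, Or.inl rfl⟩⟩⟩, by omega,
          by omega⟩
      · exact ⟨by omega, ⟨by omega, Or.inr ⟨by omega, Or.inl ⟨by omega, Or.inl rfl⟩⟩⟩, by omega,
          by omega⟩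
      · exact ⟨by omega, ⟨by omega, Or.inl ⟨by omega, Or.inr ⟨by omega, rfl⟩⟩⟩, by omega,
          by omega⟩
      · exact ⟨by omega, ⟨by omega, Or.inr ⟨by omega, Or.inr ⟨by omega, rfl⟩⟩⟩, by omega,
          by omega⟩

theorem Ev_high (hown : ∀ w, c ≤ w → w < n → own w < c) {v : ℕ} (hv : c ≤ v) :
    Ev n (nb c n own) v = ∅ := by
  rw [eq_empty_iff_forall_notMem]
  intro e
  induction e using Sym2.ind with
  | h p w =>
    rw [mem_Ev spec, mem_nb]
    rintro ⟨hp, ⟨hw, ⟨h1, h4⟩ | ⟨h1, h4⟩⟩, h2, h3⟩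
    · rcases h4 with h4 | h4
      · omega
      · have := hown w h4.1 hw; omega
    · rcases h4 with h4 | h4
      · omega
      · have := hown p h4.1 hp; omega

/-- The subtree polynomial of a cycle with pendant vertices. -/
theorem tree_poly (hc : 3 ≤ c) (hcn : c ≤ n) (hown : ∀ w, c ≤ w → w < n → own w < c)
    {V : Type*} [Finite V] {G : SimpleGraph V} {φ : V → ℕ} (R : Rep G n (nb c n own) φ) :
    ∑ H ∈ (Set.toFinite {H : G.Subgraph | H.coe.IsTree}).toFinset, x ^ H.verts.ncard =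
      (∑ i ∈ Icc 0 (c - 1), ∏ t ∈ Icc 0 i, W x c n own t) +
      (∑ i ∈ Ico 0 (c - 1), ∑ j ∈ Ioc i (c - 1), (∏ t ∈ Icc 0 i, W x c n own t) *
        ∏ t ∈ Icc j (c - 1), W x c n own t) +
      (∑ a ∈ Ico 1 c, ∑ i ∈ Icc a (c - 1), ∏ t ∈ Icc a i, W x c n own t) +
      ((n - c : ℕ) : A) * x := by
  rw [tree_sum spec R]
  have e1 : range n = insert 0 (Ico 1 c ∪ Ico c n) := by
    ext t; simp only [mem_range, mem_insert, mem_union, mem_Ico]; omega
  have e2 : Disjoint (Ico 1 c) (Ico c n) := by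
    rw [disjoint_left]; intro t; simp only [mem_Ico]; omega
  rw [e1, sum_insert (by simp only [mem_union, mem_Ico]; omega), sum_union e2]
  have h1 : ∀ v ∈ Ico 1 c, x * Z x {v} (Ev n (nb c n own) v) =
      ∑ i ∈ Icc v (c - 1), ∏ t ∈ Icc v i, W x c n own t := by
    intro v hv
    rw [mem_Ico] at hv
    rw [Ev_mid hcn hown hv.1 hv.2, U_eq x hown (by omega) (c - 1 - v) v (by omega)]
  have h2 : ∀ v ∈ Ico c n, x * Z x {v} (Ev n (nb c n own) v) = x := by
    intro v hv
    rw [mem_Ico] at hv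
    rw [Ev_high hown hv.1, Z_base x _ _ (by simp), mul_one]
  have h0 : s(0, c - 1) ∉ D c n own 0 (c - 1) := by
    rw [mem_D]
    rintro (⟨t, h1, h2⟩ | ⟨t, h1, h2, h3⟩)
    · omega
    · omega
  rw [sum_congr rfl h1, sum_congr rfl h2, sum_const, Nat.card_Ico, nsmul_eq_mul,
    Ev_zero hc hcn hown, Z_branch x (mem_insert_self _ _) (mem_singleton_self _) (by simp; omega),
    erase_insert h0, pair_comm, mul_add, U_eq x hown (by omega) (c - 1) 0 (by omega),
    T_eq x hown (by omega) (c - 2) 0 (by omega)]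
  ring

/-- The subtree polynomial of a cycle with pendant vertices, second form. -/
theorem tree_poly2 (hc : 3 ≤ c) (hcn : c ≤ n) (hown : ∀ w, c ≤ w → w < n → own w < c)
    {V : Type*} [Finite V] {G : SimpleGraph V} {φ : V → ℕ} (R : Rep G n (nb c n own) φ) :
    ∑ H ∈ (Set.toFinite {H : G.Subgraph | H.coe.IsTree}).toFinset, x ^ H.verts.ncard =
      (∑ i ∈ range c, ∑ j ∈ Ioc i c, (∏ t ∈ Icc 0 i, W x c n own t) *
        ∏ t ∈ Ico j c, W x c n own t) +
      (∑ a ∈ Ico 1 c, ∑ i ∈ Ico a c, ∏ t ∈ Icc a i, W x c n own t) +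
      ((n - c : ℕ) : A) * x := by
  rw [tree_poly x hc hcn hown R]
  congr 2
  · have e1 : Icc 0 (c - 1) = range c := by ext t; simp only [mem_Icc, mem_range]; omega
    have e2 : ∑ i ∈ Ico 0 (c - 1), ∑ j ∈ Ioc i (c - 1), (∏ t ∈ Icc 0 i, W x c n own t) *
        ∏ t ∈ Icc j (c - 1), W x c n own t = ∑ i ∈ range c, ∑ j ∈ Ioc i (c - 1),
          (∏ t ∈ Icc 0 i, W x c n own t) * ∏ t ∈ Icc j (c - 1), W x c n own t := by
      refine sum_subset ?_ ?_
      · intro t; simp only [mem_Ico, mem_range]; omega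
      · intro t h1 h2
        simp only [mem_Ico, mem_range] at h1 h2
        rw [Ioc_eq_empty (by omega), sum_empty]
    rw [e1, e2, ← sum_add_distrib]
    refine sum_congr rfl (fun i hi => ?_)
    rw [mem_range] at hi
    have e3 : Ioc i c = insert c (Ioc i (c - 1)) := by
      ext t; simp only [mem_Ioc, mem_insert]; omega
    rw [e3, sum_insert (by simp only [mem_Ioc]; omega), Ico_self, prod_empty, mul_one]
    congr 1
    refine sum_congr rfl (fun j hj => ?_)
    rw [mem_Ioc] at hj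
    rw [show Ico j c = Icc j (c - 1) from by ext t; simp only [mem_Ico, mem_Icc]; omega]
  · refine sum_congr rfl (fun a _ => ?_)
    rw [show Ico a c = Icc a (c - 1) from by ext t; simp only [mem_Ico, mem_Icc]; omega]

theorem prod_W (I : Finset ℕ) : ∏ t ∈ I, W x c n own t =
    x ^ I.card * (1 + x) ^ (∑ t ∈ I, pc c n own t) := by
  unfold W
  rw [prod_mul_distrib, prod_const, prod_pow_eq_pow_sum]

end fam

end Pool.Agent.KS6_36.MST
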