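import Pool.Agent.KS6_36.MST.Bounds

/-!
The gain in the mean order, final inequality.
-/

open Finset

namespace Pool.Agent.KS6_36.MST

theorem poly_ineq (m l : ℕ) (d : ℕ) (hd : d < 7) (hm : 559 ≤ m) (hl : l = 5 * m + d) :
    ((m : ℚ) + 1) / 56 * ((2 * T0 m l + m ^ 2 + 1) * (T0 m l + m ^ 2)) ≤
      (2 * T1 m l - T0 m l + m ^ 2 * (m + 1)) * (T0 m l + m ^ 2) -
      (T1 m l + m ^ 2 * (m + 1) + 1) * (2 * T0 m l + m ^ 2 + 1) := by
  obtain ⟨t, rfl⟩ := Nat.exists_eq_add_of_le hm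
  subst hl
  unfold T0 T1
  push_cast
  rw [← sub_nonneg]
  interval_cases d
  all_goals
    push_cast
    ring_nf
    positivity

theorem gain {m l p : ℕ} (hl : 1 ≤ l) (hm : 1 ≤ m)
    (hp : KK m l p * (2 ^ (p + 1) * (2 * m * l + (2 * m + l) ^ 2) + (2 * p + 1)) ≤ 2 ^ (2 * p)) :
    SS m l p 1 / NN m l p 1 +
      ((2 * T1 m l - T0 m l + m ^ 2 * (m + 1)) / (2 * T0 m l + m ^ 2 + 1) -
        (T1 m l + m ^ 2 * (m + 1) + 1) / (T0 m l + m ^ 2)) ≤ SS m l p 0 / NN m l p 0 := by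
  have hl' : (1 : ℚ) ≤ l := by exact_mod_cast hl
  have hm' : (1 : ℚ) ≤ m := by exact_mod_cast hm
  have hK : 1 ≤ KK m l p := by
    unfold KK
    have : (0 : ℚ) ≤ 2 * m + l + p := by positivity
    linarith
  have hT0 : 0 < T0 m l := by unfold T0; positivity
  have hT1 : 0 < T1 m l := by unfold T1; positivity
  have hP : (0 : ℚ) < 2 ^ (2 * p) := by positivity
  have hrest : (0 : ℚ) ≤ 2 ^ (p + 1) * (2 * m * l + (2 * m + l) ^ 2) := by positivity
  have hpn : (0 : ℚ) ≤ p := Nat.cast_nonneg _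
  obtain ⟨a1, a2⟩ := NN_bounds (p := p) (r := 1) hl hm le_rfl
  obtain ⟨b1, b2⟩ := NN_bounds (p := p) (r := 0) hl hm (by norm_num)
  obtain ⟨c1, c2⟩ := SS_bounds (p := p) (r := 1) hl hm le_rfl
  obtain ⟨d1, d2⟩ := SS_bounds (p := p) (r := 0) hl hm (by norm_num)
  simp only [pow_one, pow_zero, Nat.cast_one, Nat.cast_zero, one_mul, zero_div, zero_mul,
    sub_zero, add_zero] at a1 a2 b1 b2 c1 c2 d1 d2
  -- `r = 0`
  have hQ0 : 0 < T0 m l + m ^ 2 := by positivity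
  have hN0 : 0 < NN m l p 0 := lt_of_lt_of_le (by positivity) b1
  have h1 : KK m l p - SS m l p 0 / NN m l p 0 ≤
      (T1 m l + m ^ 2 * (m + 1) + 1) / (T0 m l + m ^ 2) := by
    have e : KK m l p - SS m l p 0 / NN m l p 0 =
        (KK m l p * NN m l p 0 - SS m l p 0) / NN m l p 0 := by
      field_simp
    rw [e, div_le_div_iff₀ hN0 hQ0]
    have h2 : KK m l p * NN m l p 0 - SS m l p 0 ≤
        2 ^ (2 * p) * (T1 m l + m ^ 2 * (m + 1) + 1) := by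
      refine d2.trans ?_
      have h3 : KK m l p * (2 ^ (p + 1) * (2 * m * l + (2 * m + l) ^ 2) + 2 * p) ≤
          2 ^ (2 * p) := by
        refine le_trans ?_ hp
        refine mul_le_mul_of_nonneg_left ?_ (by linarith)
        linarith
      linarith
    calc (KK m l p * NN m l p 0 - SS m l p 0) * (T0 m l + m ^ 2) ≤
        (2 ^ (2 * p) * (T1 m l + m ^ 2 * (m + 1) + 1)) * (T0 m l + m ^ 2) :=
          mul_le_mul_of_nonneg_right h2 hQ0.le
      _ = (T1 m l + m ^ 2 * (m + 1) + 1) * (2 ^ (2 * p) * (T0 m l + m ^ 2)) := by ring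
      _ ≤ _ := mul_le_mul_of_nonneg_left b1 (by positivity)
  -- `r = 1`
  have hN1 : 0 < NN m l p 1 := lt_of_lt_of_le (by positivity) a1
  have h2 : (2 * T1 m l - T0 m l + m ^ 2 * (m + 1)) / (2 * T0 m l + m ^ 2 + 1) ≤
      KK m l p - SS m l p 1 / NN m l p 1 := by
    have e : KK m l p - SS m l p 1 / NN m l p 1 =
        (KK m l p * NN m l p 1 - SS m l p 1) / NN m l p 1 := by
      field_simp
    rw [e, div_le_div_iff₀ (by positivity) hN1]
    have h3 : NN m l p 1 ≤ 2 ^ (2 * p) * (2 * T0 m l + m ^ 2 + 1) := by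
      refine a2.trans ?_
      have h4 : 2 ^ (p + 1) * (2 * m * l + (2 * m + l) ^ 2) + (2 * p + 1) ≤
          (2 : ℚ) ^ (2 * p) := by
        refine le_trans ?_ hp
        exact le_mul_of_one_le_left (by positivity) hK
      linarith
    have h5 : 0 ≤ 2 * T1 m l - T0 m l + m ^ 2 * (m + 1) := by
      unfold T0 T1
      have e : 2 * ((l : ℚ) * (l + 1) * (l + 2) / 6 + m * (m + 1) * (m + 2) / 3) -
          ((l : ℚ) * (l + 1) / 2 + m * (m + 1)) + m ^ 2 * (m + 1) =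
          l * (l + 1) * (2 * l + 1) / 6 + m * (m + 1) * (2 * m + 1) / 3 + m ^ 2 * (m + 1) := by
        ring
      rw [e]
      positivity
    calc (2 * T1 m l - T0 m l + m ^ 2 * (m + 1)) * NN m l p 1 ≤
        (2 * T1 m l - T0 m l + m ^ 2 * (m + 1)) * (2 ^ (2 * p) * (2 * T0 m l + m ^ 2 + 1)) :=
          mul_le_mul_of_nonneg_left h3 h5
      _ = (2 ^ (2 * p) * (2 * (T1 m l - 1 / 2 * T0 m l) + m ^ 2 * (m + 1))) *
          (2 * T0 m l + m ^ 2 + 1) := by ring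
      _ ≤ _ := mul_le_mul_of_nonneg_right c1 (by positivity)
  linarith

theorem exp_bound (p : ℕ) (hp : 39 ≤ p) : 5 * (100 * (p + 1)) ^ 3 ≤ 2 ^ p := by
  induction p, hp using Nat.le_induction with
  | base => norm_num
  | succ k hk ih =>
    have h : 5 * (100 * (k + 1 + 1)) ^ 3 ≤ 2 * (5 * (100 * (k + 1)) ^ 3) := by
      obtain ⟨t, rfl⟩ := Nat.exists_eq_add_of_le hk
      ring_nf
      nlinarith [sq_nonneg t, Nat.zero_le t]
    calc 5 * (100 * (k + 1 + 1)) ^ 3 ≤ 2 * (5 * (100 * (k + 1)) ^ 3) := h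
      _ ≤ 2 * 2 ^ k := Nat.mul_le_mul_left 2 ih
      _ = 2 ^ (k + 1) := (pow_succ' 2 k).symm

/-- The gain is at least `n / 400`. -/
theorem gain_n {n : ℕ} (hn : 4000 ≤ n) : ∃ m l p : ℕ, 1 ≤ m ∧ 1 ≤ l ∧
    n = 2 * m + l + 2 * p + 1 ∧
    SS m l p 1 / NN m l p 1 + (n : ℚ) / 400 ≤ SS m l p 0 / NN m l p 0 := by
  obtain ⟨p, hp⟩ : ∃ p, p = n / 100 := ⟨_, rfl⟩
  obtain ⟨c, hc⟩ : ∃ c, c = n - 1 - 2 * p := ⟨_, rfl⟩
  obtain ⟨m, hm⟩ : ∃ m, m = c / 7 := ⟨_, rfl⟩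
  obtain ⟨l, hl⟩ : ∃ l, l = c - 2 * m := ⟨_, rfl⟩
  obtain ⟨d, hd⟩ : ∃ d, d = c % 7 := ⟨_, rfl⟩
  have h1 : 559 ≤ m := by omega
  have h2 : l = 5 * m + d := by omega
  have h3 : d < 7 := by omega
  have h4 : n = 2 * m + l + 2 * p + 1 := by omega
  have h5 : 49 * n ≤ 50 * (7 * (m + 1)) := by omega
  have h6 : n ≤ 100 * (p + 1) := by omega
  have h7 : 39 ≤ p := by omega
  refine ⟨m, l, p, by omega, by omega, h4, ?_⟩
  have h8 : KK m l p * (2 ^ (p + 1) * (2 * m * l + (2 * m + l) ^ 2) + (2 * p + 1)) ≤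
      2 ^ (2 * p) := by
    have e1 : KK m l p ≤ n := by
      rw [h4]; unfold KK; push_cast
      have : (0 : ℚ) ≤ p := Nat.cast_nonneg _
      linarith
    have e2 : (2 * m * l + (2 * m + l) ^ 2 : ℚ) ≤ 2 * n ^ 2 := by
      have e3 : 2 * m * l + (2 * m + l) ^ 2 ≤ 2 * n ^ 2 := by
        have e4 : 2 * m + l ≤ n := by omega
        have e5 : (2 * m + l) ^ 2 ≤ n ^ 2 := Nat.pow_le_pow_left e4 2
        have e6 : 2 * m * l ≤ (2 * m + l) ^ 2 := by nlinarith [Nat.zero_le (m * l), Nat.zero_le (m ^ 2), Nat.zero_le (l ^ 2)]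
        omega
      exact_mod_cast e3
    have e3 : (2 * p + 1 : ℚ) ≤ 2 ^ (p + 1) * (n ^ 2 / 2) := by
      have e4 : 2 * p + 1 ≤ n := by omega
      have e5 : (2 * p + 1 : ℚ) ≤ n := by exact_mod_cast e4
      have e6 : (n : ℚ) ≤ n ^ 2 := by
        have : (1 : ℚ) ≤ n := by exact_mod_cast (by omega : 1 ≤ n)
        nlinarith
      have e7 : (2 : ℚ) ≤ 2 ^ (p + 1) := by
        calc (2 : ℚ) = 2 ^ 1 := by norm_num
          _ ≤ 2 ^ (p + 1) := pow_le_pow_right₀ (by norm_num) (by omega)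
      nlinarith
    have e4 : (5 : ℚ) * n ^ 3 ≤ 2 ^ p := by
      have e5 := exp_bound p h7
      have e6 : n ^ 3 ≤ (100 * (p + 1)) ^ 3 := Nat.pow_le_pow_left h6 3
      have e7 : 5 * n ^ 3 ≤ 2 ^ p := by omega
      exact_mod_cast e7
    have e8 : (0 : ℚ) ≤ n := Nat.cast_nonneg _
    calc KK m l p * (2 ^ (p + 1) * (2 * m * l + (2 * m + l) ^ 2) + (2 * p + 1)) ≤
        (n : ℚ) * (2 ^ (p + 1) * (2 * (n : ℚ) ^ 2) + 2 ^ (p + 1) * ((n : ℚ) ^ 2 / 2)) := by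
          refine mul_le_mul e1 ?_ (by positivity) e8
          exact add_le_add (mul_le_mul_of_nonneg_left e2 (by positivity)) e3
      _ = 2 ^ p * (5 * (n : ℚ) ^ 3) := by rw [pow_succ 2 p]; ring
      _ ≤ 2 ^ p * 2 ^ p := mul_le_mul_of_nonneg_left e4 (by positivity)
      _ = 2 ^ (2 * p) := by rw [← pow_add]; congr 1; ring
  have h9 := gain (m := m) (l := l) (p := p) (by omega) (by omega) h8
  have h10 := poly_ineq m l d h3 h1 h2
  have hT0 : 0 < T0 m l := by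
    have hl' : (1 : ℚ) ≤ l := by exact_mod_cast (by omega : 1 ≤ l)
    unfold T0; positivity
  have h11 : ((m : ℚ) + 1) / 56 ≤
      (2 * T1 m l - T0 m l + m ^ 2 * (m + 1)) / (2 * T0 m l + m ^ 2 + 1) -
        (T1 m l + m ^ 2 * (m + 1) + 1) / (T0 m l + m ^ 2) := by
    rw [div_sub_div _ _ (by positivity) (by positivity), le_div_iff₀ (by positivity)]
    linarith
  have h12 : (n : ℚ) / 400 ≤ ((m : ℚ) + 1) / 56 := by
    have : (49 * n : ℚ) ≤ 50 * (7 * (m + 1)) := by exact_mod_cast h5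
    linarith
  linarith

end Pool.Agent.KS6_36.MST
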