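import Pool.Agent.KS6_36.MST.Final
import Pool.Graph.R_pool_sql_team_22a80281.Lib.helper33_.SubTot

/-!
The graphs: a cycle with two clusters of pendant vertices and one more pendant vertex.
-/

open Finset

namespace Pool.Agent.KS6_36.MST

open Pool.Agent.Lib.helper33 Pool.Agent.Lib.helper33.SubSem Pool.Agent.Lib.helper33.SubAlg
  Pool.Agent.Lib.helper33.SubGraph

/-- The mean subtree order: the average number of vertices over all subgraphs that are trees. -/
noncomputable def meanSubtreeOrder {V : Type*} (G : SimpleGraph V) : ℚ :=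
  ((∑ᶠ H ∈ {H : G.Subgraph | H.coe.IsTree}, H.verts.ncard : ℕ) : ℚ) /
    ({H : G.Subgraph | H.coe.IsTree}.ncard : ℚ)

/-- Contraction of the edge `u v`: the vertex `v` is merged into `u`, loops are deleted and
parallel edges are merged. -/
def contract {V : Type*} (G : SimpleGraph V) (u v : V) : SimpleGraph {w : V // w ≠ v} where
  Adj a b := a ≠ b ∧ (G.Adj a b ∨ (a.1 = u ∧ G.Adj v b) ∨ (b.1 = u ∧ G.Adj v a))
  symm := ⟨fun _ _ h => ⟨h.1.symm, h.2.elim (fun h => Or.inl h.symm)
    (fun h => Or.inr h.symm)⟩⟩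
  loopless := ⟨fun _ h => h.1 rfl⟩

theorem mean_eq {m l p r : ℕ} (hm : 1 ≤ m) (hl : 1 ≤ l) {V : Type*} [Finite V]
    {G : SimpleGraph V} {φ : V → ℕ}
    (R : Rep G (2 * m + l + 2 * p + r) (nb (2 * m + l) (2 * m + l + 2 * p + r) (ow m l p)) φ) :
    meanSubtreeOrder G = SS m l p r / NN m l p r := by
  unfold meanSubtreeOrder
  have h1 : ((∑ᶠ H ∈ {H : G.Subgraph | H.coe.IsTree}, H.verts.ncard : ℕ) : ℚ) = SS m l p r := by
    rw [finsum_mem_eq_finite_toFinset_sum _ (Set.toFinite _)]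
    push_cast
    exact sum_eq hm hl R
  have h2 : ({H : G.Subgraph | H.coe.IsTree}.ncard : ℚ) = NN m l p r := by
    rw [Set.ncard_eq_toFinset_card _ (Set.toFinite _)]
    exact count_eq hm hl R
  rw [h1, h2]

section cyc

variable {c n : ℕ} {own : ℕ → ℕ}

theorem conn (hc : 3 ≤ c) (hcn : c ≤ n) (hown : ∀ w, c ≤ w → w < n → own w < c) :
    (SubTot.gOf (spec (c := c) (n := n) (own := own))).Connected := by
  refine SubTot.conn_gOf _ (by omega) ?_
  rw [List.all_eq_true]
  intro u hu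
  rw [List.mem_range] at hu
  rw [decide_eq_true_eq]
  rcases Nat.eq_zero_or_pos u with h | h
  · exact Or.inl h
  · right
    rcases Nat.lt_or_ge u c with h1 | h1
    · refine ⟨u - 1, mem_nb.mpr ⟨by omega, Or.inr ⟨by omega, Or.inl ⟨h1, Or.inl (by omega)⟩⟩⟩,
        by omega⟩
    · have h2 := hown u h1 hu
      exact ⟨own u, mem_nb.mpr ⟨by omega, Or.inr ⟨by omega, Or.inr ⟨h1, rfl⟩⟩⟩, by omega⟩

theorem card_P (a b : ℕ) : (P a b).card = b - a := by
  rw [P, card_image_of_injOn, Nat.card_Ico]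
  intro t _ t' _ h
  simp only [Sym2.eq_iff] at h
  omega

theorem card_Lf (hown : ∀ w, c ≤ w → w < n → own w < c) :
    (Lf c n own (Icc 0 (c - 1))).card = n - c := by
  rw [Lf, card_image_of_injOn]
  · rw [filter_true_of_mem, Nat.card_Ico]
    intro w hw
    rw [mem_Ico] at hw
    have := hown w hw.1 hw.2
    rw [mem_Icc]
    omega
  · intro w hw w' hw' h
    simp only [coe_filter, mem_Ico, Set.mem_ofPred_eq] at hw hw'
    simp only [Sym2.eq_iff] at h
    have h1 := hown w hw.1.1 hw.1.2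
    have h2 := hown w' hw'.1.1 hw'.1.2
    omega

theorem card_edges (hc : 3 ≤ c) (hcn : c ≤ n) (hown : ∀ w, c ≤ w → w < n → own w < c) :
    (SubTot.gOf (spec (c := c) (n := n) (own := own))).edgeSet.ncard = n := by
  have h1 : Sym2.map Fin.val '' (SubTot.gOf (spec (c := c) (n := n) (own := own))).edgeSet =
      (Ev n (nb c n own) 0 : Set (Sym2 ℕ)) := by
    ext e
    induction e using Sym2.ind with
    | h a b =>
      rw [mem_coe, mem_Ev spec, Set.mem_image]
      constructor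
      · rintro ⟨f, hf, h⟩
        induction f using Sym2.ind with
        | h u v =>
          rw [Sym2.map_mk] at h
          rcases Sym2.eq_iff.mp h with ⟨rfl, rfl⟩ | ⟨rfl, rfl⟩
          · exact ⟨u.2, hf, by omega, by omega⟩
          · exact ⟨v.2, ((SimpleGraph.mem_edgeSet _).mp hf).symm, by omega, by omega⟩
      · rintro ⟨ha, hb, -, -⟩
        have hb' := (mem_nb.mp hb).1
        exact ⟨s(⟨a, ha⟩, ⟨b, hb'⟩), hb, rfl⟩
  rw [← Set.ncard_image_of_injective _ (Sym2.map.injective Fin.val_injective), h1,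
    Set.ncard_coe_finset, Ev_zero hc hcn hown, card_insert_of_notMem, D, card_union_of_disjoint,
    card_P, card_Lf hown]
  · omega
  · rw [disjoint_left]
    intro e he he'
    obtain ⟨w, hw, -, rfl⟩ := mem_Lf.mp he'
    have := mem_P_lt he (Sym2.mem_mk_right _ _)
    omega
  · rw [mem_D]
    rintro (⟨t, h1, h2⟩ | ⟨t, h1, h2, h3⟩) <;> omega

end cyc

theorem adj_iff {m l p : ℕ} {n : ℕ} (a b : Fin n) :
    (SubTot.gOf (spec (c := 2 * m + l) (n := n) (own := ow m l p))).Adj a b ↔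
      (adjL (2 * m + l) (ow m l p) a b ∨ adjL (2 * m + l) (ow m l p) b a) := by
  change (b : ℕ) ∈ nb _ _ _ (a : ℕ) ↔ _
  rw [mem_nb]
  exact ⟨fun h => h.2, fun h => ⟨b.2, h⟩⟩

theorem main {n : ℕ} (hn : 4000 ≤ n) : ∃ (G : SimpleGraph (Fin n)) (u v : Fin n),
    G.Connected ∧ G.edgeSet.ncard = n ∧ G.Adj u v ∧ (∀ w, G.Adj v w → w = u) ∧
    meanSubtreeOrder G + (n : ℚ) / 400 ≤ meanSubtreeOrder (contract G u v) := by
  obtain ⟨m, l, p, hm, hl, rfl, h⟩ := gain_n hn
  have hown : ∀ w, 2 * m + l ≤ w → w < 2 * m + l + 2 * p + 1 → ow m l p w < 2 * m + l :=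
    fun w _ _ => ow_lt hm hl w
  have hv : ow m l p (2 * m + l + 2 * p) = m := by
    unfold ow; rw [if_neg (by omega), if_neg (by omega)]
  let G := SubTot.gOf (spec (c := 2 * m + l) (n := 2 * m + l + 2 * p + 1) (own := ow m l p))
  let u : Fin (2 * m + l + 2 * p + 1) := ⟨m, by omega⟩
  let v : Fin (2 * m + l + 2 * p + 1) := ⟨2 * m + l + 2 * p, by omega⟩
  have hpend : ∀ w, G.Adj v w → w = u := by
    intro w hw
    have hw2 := w.2
    rcases (adj_iff _ _).mp hw with ⟨h1, h2⟩ | ⟨h1, h2 | h2⟩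
    · simp only [v] at h1; omega
    · simp only [v] at h2; omega
    · simp only [v] at h2
      exact Fin.ext (h2.2.symm.trans hv)
  have huv : G.Adj u v := (adj_iff _ _).mpr (Or.inl ⟨by simp only [u, v]; omega,
    Or.inr ⟨by simp only [v]; omega, hv⟩⟩)
  have hR : Rep (contract G u v) (2 * m + l + 2 * p + 0)
      (nb (2 * m + l) (2 * m + l + 2 * p + 0) (ow m l p)) (fun w => (w.1 : ℕ)) := by
    have hlt : ∀ w : {w : Fin (2 * m + l + 2 * p + 1) // w ≠ v},
        (w.1 : ℕ) < 2 * m + l + 2 * p + 0 := by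
      intro w
      have h1 := w.1.2
      have h2 : (w.1 : ℕ) ≠ 2 * m + l + 2 * p := fun h => w.2 (Fin.ext h)
      omega
    refine ⟨fun a b h => Subtype.ext (Fin.ext h), hlt, fun i hi =>
      ⟨⟨⟨i, by omega⟩, fun h => ?_⟩, rfl⟩, ?_⟩
    · have := congrArg Fin.val h
      simp only [v] at this
      omega
    · intro a b
      rw [mem_nb]
      constructor
      · rintro ⟨hne, h | h | h⟩
        · exact ⟨hlt b, (adj_iff _ _).mp h⟩
        · exact absurd (Subtype.ext (h.1.trans (hpend _ h.2).symm)) hne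
        · exact absurd (Subtype.ext ((hpend _ h.2).trans h.1.symm)) hne
      · rintro ⟨-, h⟩
        have h4 : G.Adj a b := (adj_iff _ _).mpr h
        exact ⟨fun hc => h4.ne (congrArg Subtype.val hc), Or.inl h4⟩
  refine ⟨G, u, v, conn (by omega) (by omega) hown, card_edges (by omega) (by omega) hown, huv,
    hpend, ?_⟩
  rw [mean_eq hm hl (SubTot.rep_gOf _), mean_eq hm hl hR]
  exact h

end Pool.Agent.KS6_36.MST
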