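import Pool.Agent.KS6_36.MST.Cyc

/-!
Number and total order of the subtrees of a cycle with three clusters of pendant vertices.
-/

open Finset

namespace Pool.Agent.KS6_36.MST

open Pool.Agent.Lib.helper33.SubSem Pool.Agent.Lib.helper33.SubAlg
  Pool.Agent.Lib.helper33.SubGraph

/-- owners of the pendant vertices: `p` at `0`, `p` at `2 m`, the others at `m` -/
def ow (m l p : ℕ) (w : ℕ) : ℕ :=
  if w < 2 * m + l + p then 0 else if w < 2 * m + l + 2 * p then 2 * m else m

theorem ow_lt {m l p : ℕ} (hm : 1 ≤ m) (hl : 1 ≤ l) (w : ℕ) : ow m l p w < 2 * m + l := by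
  unfold ow; split_ifs <;> omega

theorem pc_eq {m l p r : ℕ} (t : ℕ) :
    pc (2 * m + l) (2 * m + l + 2 * p + r) (ow m l p) t =
      (if t = 0 then p else 0) + (if t = 2 * m then p else 0) + (if t = m then r else 0) := by
  unfold pc
  rw [card_filter, ← sum_Ico_consecutive _ (show 2 * m + l ≤ 2 * m + l + p by omega)
    (show 2 * m + l + p ≤ 2 * m + l + 2 * p + r by omega),
    ← sum_Ico_consecutive _ (show 2 * m + l + p ≤ 2 * m + l + 2 * p by omega)
    (show 2 * m + l + 2 * p ≤ 2 * m + l + 2 * p + r by omega)]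
  have h1 : ∀ w ∈ Ico (2 * m + l) (2 * m + l + p), (if ow m l p w = t then 1 else 0) =
      (if t = 0 then 1 else 0) := by
    intro w hw
    rw [mem_Ico] at hw
    have h : ow m l p w = 0 := by unfold ow; rw [if_pos hw.2]
    rw [h]
    simp only [eq_comm]
  have h2 : ∀ w ∈ Ico (2 * m + l + p) (2 * m + l + 2 * p), (if ow m l p w = t then 1 else 0) =
      (if t = 2 * m then 1 else 0) := by
    intro w hw
    rw [mem_Ico] at hw
    have h : ow m l p w = 2 * m := by unfold ow; rw [if_neg (by omega), if_pos hw.2]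
    rw [h]
    simp only [eq_comm]
  have h3 : ∀ w ∈ Ico (2 * m + l + 2 * p) (2 * m + l + 2 * p + r),
      (if ow m l p w = t then 1 else 0) = (if t = m then 1 else 0) := by
    intro w hw
    rw [mem_Ico] at hw
    have h : ow m l p w = m := by unfold ow; rw [if_neg (by omega), if_neg (by omega)]
    rw [h]
    simp only [eq_comm]
  rw [sum_congr rfl h1, sum_congr rfl h2, sum_congr rfl h3, sum_const, sum_const, sum_const,
    Nat.card_Ico, Nat.card_Ico, Nat.card_Ico]
  have e1 : 2 * m + l + p - (2 * m + l) = p := by omega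
  have e2 : 2 * m + l + 2 * p - (2 * m + l + p) = p := by omega
  have e3 : 2 * m + l + 2 * p + r - (2 * m + l + 2 * p) = r := by omega
  rw [e1, e2, e3, add_assoc]
  simp

/-- the number of pendant vertices attached to `I` -/
def qs (m p r : ℕ) (I : Finset ℕ) : ℕ :=
  (if 0 ∈ I then p else 0) + (if 2 * m ∈ I then p else 0) + (if m ∈ I then r else 0)

theorem sum_pc {m l p r : ℕ} (I : Finset ℕ) :
    ∑ t ∈ I, pc (2 * m + l) (2 * m + l + 2 * p + r) (ow m l p) t = qs m p r I := by
  simp only [pc_eq]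
  rw [sum_add_distrib, sum_add_distrib, sum_ite_eq', sum_ite_eq', sum_ite_eq']
  rfl

section tot

variable {m l p r : ℕ} {V : Type*} [Finite V] {G : SimpleGraph V} {φ : V → ℕ}

/-- the set of subtrees -/
noncomputable def trees {V : Type*} [Finite V] (G : SimpleGraph V) : Finset G.Subgraph :=
  (Set.toFinite {H : G.Subgraph | H.coe.IsTree}).toFinset

theorem poly (hm : 1 ≤ m) (hl : 1 ≤ l)
    (R : Rep G (2 * m + l + 2 * p + r) (nb (2 * m + l) (2 * m + l + 2 * p + r) (ow m l p)) φ)
    {A : Type*} [CommSemiring A] (x : A) :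
    ∑ H ∈ trees G, x ^ H.verts.ncard =
      (∑ i ∈ range (2 * m + l), ∑ j ∈ Ioc i (2 * m + l),
        x ^ ((i + 1) + (2 * m + l - j)) *
          (1 + x) ^ (qs m p r (Icc 0 i) + qs m p r (Ico j (2 * m + l)))) +
      (∑ a ∈ Ico 1 (2 * m + l), ∑ i ∈ Ico a (2 * m + l),
        x ^ (i + 1 - a) * (1 + x) ^ (qs m p r (Icc a i))) +
      ((2 * p + r : ℕ) : A) * x := by
  rw [trees, tree_poly2 x (by omega) (by omega) (fun w _ _ => ow_lt hm hl w) R]
  simp only [prod_W, sum_pc, Nat.card_Icc, Nat.card_Ico]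
  refine congrArg₂ (· + ·) (congrArg₂ (· + ·) ?_ rfl) ?_
  · refine sum_congr rfl (fun i _ => sum_congr rfl (fun j _ => ?_))
    rw [pow_add, pow_add]
    simp only [Nat.sub_zero]
    ring
  · congr 2
    omega

theorem count_eq (hm : 1 ≤ m) (hl : 1 ≤ l)
    (R : Rep G (2 * m + l + 2 * p + r) (nb (2 * m + l) (2 * m + l + 2 * p + r) (ow m l p)) φ) :
    ((trees G).card : ℚ) =
      (∑ i ∈ range (2 * m + l), ∑ j ∈ Ioc i (2 * m + l),
        (2 : ℚ) ^ (qs m p r (Icc 0 i) + qs m p r (Ico j (2 * m + l)))) +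
      (∑ a ∈ Ico 1 (2 * m + l), ∑ i ∈ Ico a (2 * m + l), (2 : ℚ) ^ (qs m p r (Icc a i))) +
      (2 * p + r) := by
  have h := poly (p := p) (r := r) hm hl R (1 : ℚ)
  simp only [one_pow, one_mul, mul_one, sum_const, nsmul_eq_mul] at h
  norm_num at h
  rw [h]

open Polynomial in
theorem ev_term (s q : ℕ) : eval 1 (derivative ((X : ℚ[X]) ^ s * (1 + X) ^ q)) =
    2 ^ q * ((s : ℚ) + q / 2) := by
  rw [derivative_mul, derivative_X_pow, derivative_pow]
  simp only [derivative_add, derivative_one, derivative_X, eval_add, eval_mul, eval_pow, eval_X,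
    eval_C, eval_one, zero_add, mul_one, one_pow]
  rcases q with _ | q
  · simp
  · simp only [Nat.add_sub_cancel]
    rw [pow_succ]
    norm_num
    ring

theorem sum_eq (hm : 1 ≤ m) (hl : 1 ≤ l)
    (R : Rep G (2 * m + l + 2 * p + r) (nb (2 * m + l) (2 * m + l + 2 * p + r) (ow m l p)) φ) :
    ∑ H ∈ trees G, (H.verts.ncard : ℚ) =
      (∑ i ∈ range (2 * m + l), ∑ j ∈ Ioc i (2 * m + l),
        (2 : ℚ) ^ (qs m p r (Icc 0 i) + qs m p r (Ico j (2 * m + l))) *
        ((((i + 1) + (2 * m + l - j) : ℕ) : ℚ) +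
          ((qs m p r (Icc 0 i) + qs m p r (Ico j (2 * m + l)) : ℕ) : ℚ) / 2)) +
      (∑ a ∈ Ico 1 (2 * m + l), ∑ i ∈ Ico a (2 * m + l), (2 : ℚ) ^ (qs m p r (Icc a i)) *
        (((i + 1 - a : ℕ) : ℚ) + (qs m p r (Icc a i) : ℚ) / 2)) +
      (2 * p + r) := by
  have h := congrArg (fun f => Polynomial.eval 1 (Polynomial.derivative f))
    (poly (p := p) (r := r) hm hl R (Polynomial.X : Polynomial ℚ))
  simp only [Polynomial.derivative_sum, Polynomial.eval_finsetSum, Polynomial.derivative_add,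
    Polynomial.eval_add, ev_term] at h
  simp only [Polynomial.derivative_X_pow, Polynomial.eval_mul, Polynomial.eval_C,
    Polynomial.eval_pow, Polynomial.eval_X, one_pow, mul_one] at h
  rw [h]
  simp

end tot

end Pool.Agent.KS6_36.MST
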