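import Pool.Agent.KS6_36.MST.Num

/-!
Bounds for the number and the total order of the subtrees.
-/

open Finset

namespace Pool.Agent.KS6_36.MST

theorem split (m l : ℕ) (F : ℕ → ℕ → ℚ) :
    ∑ i ∈ range (2 * m + l), ∑ j ∈ Ioc i (2 * m + l), F i j =
      (∑ i ∈ Ico 0 m, ∑ j ∈ Ioc i m, F i j + ∑ i ∈ Ico m (2 * m), ∑ j ∈ Ioc i (2 * m), F i j +
        ∑ i ∈ Ico (2 * m) (2 * m + l), ∑ j ∈ Ioc i (2 * m + l), F i j) +
      (∑ i ∈ Ico 0 m, ∑ j ∈ Ioc m (2 * m), F i j) +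
      (∑ i ∈ Ico 0 (2 * m), ∑ j ∈ Ioc (2 * m) (2 * m + l), F i j) := by
  rw [range_eq_Ico, ← sum_Ico_consecutive _ (show 0 ≤ 2 * m by omega)
    (show 2 * m ≤ 2 * m + l by omega)]
  have h1 : ∀ i ∈ Ico 0 (2 * m), ∑ j ∈ Ioc i (2 * m + l), F i j =
      ∑ j ∈ Ioc i (2 * m), F i j + ∑ j ∈ Ioc (2 * m) (2 * m + l), F i j := by
    intro i hi
    rw [mem_Ico] at hi
    rw [sum_Ioc_consecutive _ (by omega) (by omega)]
  rw [sum_congr rfl h1, sum_add_distrib, ← sum_Ico_consecutive _ (show 0 ≤ m by omega)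
    (show m ≤ 2 * m by omega)]
  have h2 : ∀ i ∈ Ico 0 m, ∑ j ∈ Ioc i (2 * m), F i j =
      ∑ j ∈ Ioc i m, F i j + ∑ j ∈ Ioc m (2 * m), F i j := by
    intro i hi
    rw [mem_Ico] at hi
    rw [sum_Ioc_consecutive _ (by omega) (by omega)]
  rw [sum_congr rfl h2, sum_add_distrib]
  ring

theorem inner1 (i : ℕ) : ∀ k : ℕ, ∑ j ∈ Ioc i (i + k), ((j : ℚ) - i) = k * (k + 1) / 2 := by
  intro k
  induction k with
  | zero => simp
  | succ k ih =>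
    have e : Ioc i (i + (k + 1)) = insert (i + k + 1) (Ioc i (i + k)) := by
      ext t; simp only [mem_Ioc, mem_insert]; omega
    rw [e, sum_insert (by simp), ih]
    push_cast
    ring

theorem tri0 (b : ℕ) : ∀ k a : ℕ, a + k = b → ∑ i ∈ Ico a b, ∑ _j ∈ Ioc i b, (1 : ℚ) =
    k * (k + 1) / 2 := by
  intro k
  induction k with
  | zero => intro a ha; obtain rfl : a = b := by omega
            simp
  | succ k ih =>
    intro a ha
    rw [sum_eq_sum_Ico_succ_bot (by omega), ih (a + 1) (by omega), sum_const, Nat.card_Ioc,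
      show b - a = k + 1 by omega]
    push_cast
    simp only [nsmul_eq_mul]
    push_cast
    ring

theorem tri1 (b : ℕ) : ∀ k a : ℕ, a + k = b → ∑ i ∈ Ico a b, ∑ j ∈ Ioc i b, ((j : ℚ) - i) =
    k * (k + 1) * (k + 2) / 6 := by
  intro k
  induction k with
  | zero => intro a ha; obtain rfl : a = b := by omega
            simp
  | succ k ih =>
    intro a ha
    rw [sum_eq_sum_Ico_succ_bot (by omega), ih (a + 1) (by omega), ← ha, inner1]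
    push_cast
    ring

theorem rect0 (a b d : ℕ) (hab : a ≤ b) (hbd : b ≤ d) :
    ∑ _i ∈ Ico a b, ∑ _j ∈ Ioc b d, (1 : ℚ) = ((b : ℚ) - a) * ((d : ℚ) - b) := by
  simp only [sum_const, Nat.card_Ioc, Nat.card_Ico, nsmul_eq_mul, mul_one]
  rw [Nat.cast_sub hab, Nat.cast_sub hbd]

theorem sum_id_Ico (m : ℕ) : ∑ i ∈ Ico 0 m, (i : ℚ) = m * (m - 1) / 2 := by
  induction m with
  | zero => simp
  | succ k ih => rw [sum_Ico_succ_top (by omega), ih]; push_cast; ring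

theorem rect1 (m : ℕ) : ∑ i ∈ Ico 0 m, ∑ j ∈ Ioc m (2 * m), ((j : ℚ) - i) = m ^ 2 * (m + 1) := by
  simp only [sum_sub_distrib, sum_const, Nat.card_Ioc, Nat.card_Ico, nsmul_eq_mul]
  rw [← mul_sum, sum_id_Ico]
  have h : ∑ j ∈ Ioc m (2 * m), (j : ℚ) = m * (3 * m + 1) / 2 := by
    have h1 : ∑ j ∈ Ioc m (m + m), ((j : ℚ) - m) = m * (m + 1) / 2 := inner1 m m
    rw [sum_sub_distrib, sum_const, Nat.card_Ioc, nsmul_eq_mul, ← two_mul,
      show 2 * m - m = m by omega] at h1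
    linarith
  rw [h, show 2 * m - m = m by omega]
  simp only [Nat.sub_zero]
  ring

/-! ### The exponents -/

section expo

variable {m l p r : ℕ}

theorem qs_low (_hm : 1 ≤ m) (i : ℕ) : qs m p r (Icc 0 i) =
    p + (if 2 * m ≤ i then p else 0) + (if m ≤ i then r else 0) := by
  simp [qs, mem_Icc]

theorem qs_high (hl : 1 ≤ l) (hm : 1 ≤ m) {j : ℕ} (hj : 1 ≤ j) :
    qs m p r (Ico j (2 * m + l)) =
    (if j ≤ 2 * m then p else 0) + (if j ≤ m then r else 0) := by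
  have h1 : ¬ (j ≤ 0 ∧ 0 < 2 * m + l) := by omega
  have h2 : (j ≤ 2 * m ∧ 2 * m < 2 * m + l) ↔ j ≤ 2 * m := by omega
  have h3 : (j ≤ m ∧ m < 2 * m + l) ↔ j ≤ m := by omega
  unfold qs
  simp only [mem_Ico, h1, h2, h3, if_false, zero_add]

/-- the exponent of an arc pair -/
def QQ (m l p r i j : ℕ) : ℕ := qs m p r (Icc 0 i) + qs m p r (Ico j (2 * m + l))

theorem QQ_tri0 (hl : 1 ≤ l) (hm : 1 ≤ m) {i j : ℕ} (hij : i < j) (hj : j ≤ m) :
    QQ m l p r i j = 2 * p + r := by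
  rw [QQ, qs_low hm, qs_high hl hm (by omega), if_neg (by omega), if_neg (by omega),
    if_pos (by omega), if_pos (by omega)]
  ring

theorem QQ_tri1 (hl : 1 ≤ l) (hm : 1 ≤ m) {i j : ℕ} (hij : i < j) (hi : m ≤ i)
    (hj : j ≤ 2 * m) : QQ m l p r i j = 2 * p + r := by
  rw [QQ, qs_low hm, qs_high hl hm (by omega), if_neg (by omega), if_pos (by omega),
    if_pos (by omega), if_neg (by omega)]
  ring

theorem QQ_tri2 (hl : 1 ≤ l) (hm : 1 ≤ m) {i j : ℕ} (hij : i < j) (hi : 2 * m ≤ i) :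
    QQ m l p r i j = 2 * p + r := by
  rw [QQ, qs_low hm, qs_high hl hm (by omega), if_pos (by omega), if_pos (by omega),
    if_neg (by omega), if_neg (by omega)]
  ring

theorem QQ_mid (hl : 1 ≤ l) (hm : 1 ≤ m) {i j : ℕ} (hi : i < m) (hj : m < j)
    (hj2 : j ≤ 2 * m) : QQ m l p r i j = 2 * p := by
  rw [QQ, qs_low hm, qs_high hl hm (by omega), if_neg (by omega), if_neg (by omega),
    if_pos (by omega), if_neg (by omega)]
  ring

theorem QQ_rest (hl : 1 ≤ l) (hm : 1 ≤ m) {i j : ℕ} (hi : i < 2 * m) (hj : 2 * m < j) :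
    QQ m l p r i j ≤ p + r := by
  rw [QQ, qs_low hm, qs_high hl hm (by omega), if_neg (by omega), if_neg (show ¬ j ≤ 2 * m by omega),
    if_neg (show ¬ j ≤ m by omega)]
  split_ifs <;> omega

theorem qs_arc {a i : ℕ} (ha : 1 ≤ a) : qs m p r (Icc a i) ≤ p + r := by
  have h1 : ¬ (a ≤ 0 ∧ 0 ≤ i) := by omega
  unfold qs
  simp only [mem_Icc, h1, if_false, zero_add]
  split_ifs <;> omega

/-- the number of trees -/
def NN (m l p r : ℕ) : ℚ :=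
  (∑ i ∈ range (2 * m + l), ∑ j ∈ Ioc i (2 * m + l), (2 : ℚ) ^ QQ m l p r i j) +
    (∑ a ∈ Ico 1 (2 * m + l), ∑ i ∈ Ico a (2 * m + l), (2 : ℚ) ^ (qs m p r (Icc a i))) +
    (2 * p + r)

/-- the total order -/
def SS (m l p r : ℕ) : ℚ :=
  (∑ i ∈ range (2 * m + l), ∑ j ∈ Ioc i (2 * m + l), (2 : ℚ) ^ QQ m l p r i j *
    ((((i + 1) + (2 * m + l - j) : ℕ) : ℚ) + (QQ m l p r i j : ℚ) / 2)) +
  (∑ a ∈ Ico 1 (2 * m + l), ∑ i ∈ Ico a (2 * m + l), (2 : ℚ) ^ (qs m p r (Icc a i)) *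
    (((i + 1 - a : ℕ) : ℚ) + (qs m p r (Icc a i) : ℚ) / 2)) +
  (2 * p + r)

/-- the reference order -/
def KK (m l p : ℕ) : ℚ := 2 * m + l + 1 + p

/-- deficiency of an arc pair -/
def B (m l p r i j : ℕ) : ℚ := (2 : ℚ) ^ QQ m l p r i j *
    (KK m l p - ((((i + 1) + (2 * m + l - j) : ℕ) : ℚ) + (QQ m l p r i j : ℚ) / 2))

/-- deficiency of an arc -/
def B' (m l p r a i : ℕ) : ℚ := (2 : ℚ) ^ (qs m p r (Icc a i)) *
    (KK m l p - (((i + 1 - a : ℕ) : ℚ) + (qs m p r (Icc a i) : ℚ) / 2))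

theorem KN_sub (m l p r : ℕ) : KK m l p * NN m l p r - SS m l p r =
    (∑ i ∈ range (2 * m + l), ∑ j ∈ Ioc i (2 * m + l), B m l p r i j) +
    (∑ a ∈ Ico 1 (2 * m + l), ∑ i ∈ Ico a (2 * m + l), B' m l p r a i) +
    (KK m l p - 1) * (2 * p + r) := by
  have h1 : ∀ i j, B m l p r i j = KK m l p * (2 : ℚ) ^ QQ m l p r i j -
      (2 : ℚ) ^ QQ m l p r i j *
    ((((i + 1) + (2 * m + l - j) : ℕ) : ℚ) + (QQ m l p r i j : ℚ) / 2) := by
    intro i j; unfold B; ring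
  have h2 : ∀ a i, B' m l p r a i = KK m l p * (2 : ℚ) ^ (qs m p r (Icc a i)) -
      (2 : ℚ) ^ (qs m p r (Icc a i)) *
    (((i + 1 - a : ℕ) : ℚ) + (qs m p r (Icc a i) : ℚ) / 2) := by
    intro i j; unfold B'; ring
  simp only [h1, h2, sum_sub_distrib, ← mul_sum]
  unfold NN SS
  ring

theorem size_cast {i j : ℕ} (hj : j ≤ 2 * m + l) :
    (((i + 1) + (2 * m + l - j) : ℕ) : ℚ) = 2 * m + l + 1 - ((j : ℚ) - i) := by
  push_cast [Nat.cast_sub hj]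
  ring

theorem B_main {i j : ℕ} (hj : j ≤ 2 * m + l) {s : ℕ} (hQ : QQ m l p r i j = 2 * p + s) :
    B m l p r i j = 2 ^ (2 * p + s) * (((j : ℚ) - i) - (s : ℚ) / 2) := by
  rw [B, hQ, size_cast hj, KK]
  push_cast
  ring

theorem B_rest (hr : r ≤ 1) {i j : ℕ} (hij : i < j) (hj : j ≤ 2 * m + l)
    (hQ : QQ m l p r i j ≤ p + r) :
    0 ≤ B m l p r i j ∧ B m l p r i j ≤ 2 ^ (p + 1) * KK m l p := by
  have h1 : (QQ m l p r i j : ℚ) ≤ p + 1 := by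
    have : QQ m l p r i j ≤ p + 1 := by omega
    exact_mod_cast this
  have h2 : ((i : ℚ) + 1) ≤ j := by exact_mod_cast hij
  have h3 : (2 : ℚ) ^ QQ m l p r i j ≤ 2 ^ (p + 1) := pow_le_pow_right₀ (by norm_num) (by omega)
  have h4 : (0 : ℚ) < 2 ^ QQ m l p r i j := by positivity
  have h5 : (0 : ℚ) ≤ QQ m l p r i j := Nat.cast_nonneg _
  have h6 : (0 : ℚ) ≤ p := Nat.cast_nonneg _
  have h7 : (((i + 1) + (2 * m + l - j) : ℕ) : ℚ) = 2 * m + l + 1 - ((j : ℚ) - i) := size_cast hj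
  have h8 : (0 : ℚ) ≤ (((i + 1) + (2 * m + l - j) : ℕ) : ℚ) := Nat.cast_nonneg _
  have h9 : 0 ≤ KK m l p - ((((i + 1) + (2 * m + l - j) : ℕ) : ℚ) +
      (QQ m l p r i j : ℚ) / 2) := by
    rw [h7, KK]; linarith
  refine ⟨mul_nonneg h4.le h9, ?_⟩
  unfold B
  refine mul_le_mul h3 (by linarith) h9 (by positivity)

theorem B'_rest (hr : r ≤ 1) {a i : ℕ} (ha : 1 ≤ a) (hai : a ≤ i) (hi : i < 2 * m + l) :
    0 ≤ B' m l p r a i ∧ B' m l p r a i ≤ 2 ^ (p + 1) * KK m l p := by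
  have h0 : qs m p r (Icc a i) ≤ p + 1 := (qs_arc ha).trans (by omega)
  have h1 : (qs m p r (Icc a i) : ℚ) ≤ p + 1 := by exact_mod_cast h0
  have h3 : (2 : ℚ) ^ qs m p r (Icc a i) ≤ 2 ^ (p + 1) := pow_le_pow_right₀ (by norm_num) h0
  have h4 : (0 : ℚ) < 2 ^ qs m p r (Icc a i) := by positivity
  have h5 : (0 : ℚ) ≤ qs m p r (Icc a i) := Nat.cast_nonneg _
  have h6 : (0 : ℚ) ≤ p := Nat.cast_nonneg _
  have h7 : ((i + 1 - a : ℕ) : ℚ) ≤ 2 * m + l := by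
    have : i + 1 - a ≤ 2 * m + l := by omega
    exact_mod_cast this
  have h8 : (0 : ℚ) ≤ ((i + 1 - a : ℕ) : ℚ) := Nat.cast_nonneg _
  have h9 : 0 ≤ KK m l p - (((i + 1 - a : ℕ) : ℚ) + (qs m p r (Icc a i) : ℚ) / 2) := by
    rw [KK]; linarith
  refine ⟨mul_nonneg h4.le h9, ?_⟩
  unfold B'
  refine mul_le_mul h3 (by linarith) h9 (by positivity)

/-- main terms of the number of trees -/
def T0 (m l : ℕ) : ℚ := (l : ℚ) * (l + 1) / 2 + m * (m + 1)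

/-- main terms of the deficiency -/
def T1 (m l : ℕ) : ℚ := (l : ℚ) * (l + 1) * (l + 2) / 6 + m * (m + 1) * (m + 2) / 3

theorem main_split (hl : 1 ≤ l) (hm : 1 ≤ m) (F : ℕ → ℕ → ℚ) (α β γ : ℚ)
    (h1 : ∀ i j, i < j → j ≤ 2 * m + l → QQ m l p r i j = 2 * p + r →
      F i j = α * ((j : ℚ) - i) + β * 1)
    (h2 : ∀ i j, i < j → j ≤ 2 * m + l → QQ m l p r i j = 2 * p →
      i < m → m < j → j ≤ 2 * m → F i j = 2 ^ (2 * p) * γ * ((j : ℚ) - i) + 2 ^ (2 * p) * (1 - γ) * 1) :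
    ∑ i ∈ range (2 * m + l), ∑ j ∈ Ioc i (2 * m + l), F i j =
      α * T1 m l + β * T0 m l + 2 ^ (2 * p) * (γ * (m ^ 2 * (m + 1)) + (1 - γ) * m ^ 2) +
      ∑ i ∈ Ico 0 (2 * m), ∑ j ∈ Ioc (2 * m) (2 * m + l), F i j := by
  have t : ∀ a k : ℕ, (∀ i j, a ≤ i → i < j → j ≤ a + k → F i j = α * ((j : ℚ) - i) + β * 1) →
      ∑ i ∈ Ico a (a + k), ∑ j ∈ Ioc i (a + k), F i j =
        α * (k * (k + 1) * (k + 2) / 6) + β * (k * (k + 1) / 2) := by
    intro a k h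
    rw [← tri1 (a + k) k a rfl, ← tri0 (a + k) k a rfl, mul_sum, mul_sum, ← sum_add_distrib]
    refine sum_congr rfl (fun i hi => ?_)
    rw [mul_sum, mul_sum, ← sum_add_distrib]
    refine sum_congr rfl (fun j hj => ?_)
    rw [mem_Ico] at hi
    rw [mem_Ioc] at hj
    exact h i j hi.1 hj.1 hj.2
  rw [split]
  congr 1
  have t1 := t 0 m (fun i j _ h4 h5 => h1 i j h4 (by omega) (QQ_tri0 hl hm h4 (by omega)))
  have t2 := t m m (fun i j h3 h4 h5 => h1 i j h4 (by omega) (QQ_tri1 hl hm h4 h3 (by omega)))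
  have t3 := t (2 * m) l (fun i j h3 h4 h5 => h1 i j h4 (by omega) (QQ_tri2 hl hm h4 h3))
  rw [zero_add] at t1
  rw [← two_mul] at t2
  rw [t1, t2, t3]
  have t4 : ∑ i ∈ Ico 0 m, ∑ j ∈ Ioc m (2 * m), F i j =
      2 ^ (2 * p) * γ * (m ^ 2 * (m + 1)) + 2 ^ (2 * p) * (1 - γ) * m ^ 2 := by
    have h3 := rect0 0 m (2 * m) (by omega) (by omega)
    have h4 : (m : ℚ) ^ 2 = ∑ i ∈ Ico 0 m, ∑ _j ∈ Ioc m (2 * m), (1 : ℚ) := by
      rw [h3]; push_cast; ring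
    have h5 := rect1 m
    rw [← h5, h4, mul_sum, mul_sum, ← sum_add_distrib]
    refine sum_congr rfl (fun i hi => ?_)
    rw [mul_sum, mul_sum, ← sum_add_distrib]
    refine sum_congr rfl (fun j hj => ?_)
    rw [mem_Ico] at hi
    rw [mem_Ioc] at hj
    exact h2 i j (by omega) (by omega) (QQ_mid hl hm hi.2 hj.1 hj.2) hi.2 hj.1 hj.2
  rw [t4]
  unfold T0 T1
  ring

end expo

end Pool.Agent.KS6_36.MST
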